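import Mathlib
import Pool.Agent.TH459.ER3

/-!
# Two anticomplete sets of large chromatic number, if large chromatic number is due to Ramsey's theorem

Let `φ` map the `k`-subsets of a large set `[N]` to the vertices of a graph `H` such that the `k`-subsets
of no `n`-set are mapped to an independent set; by Ramsey's theorem `χ(H)` is then large. This is so,
for example, if `H` contains a large shift graph (or a large type graph) on `k`-subsets as a not
necessarily induced subgraph, or as a homomorphic image. If the clique number of `H` is bounded, then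
`H` contains two disjoint sets `A`, `B` of large chromatic number with no edges between them.
-/

namespace Pool.Agent.Results.MP_0c540e_co.RamseyWitnessed

lemma enum {N n k : ℕ} (e : Fin n → ℕ) (he : StrictMono e)
    (x : Finset (Fin N)) (hx : ∀ z ∈ x, ∃ i, (z : ℕ) = e i) (hk : x.card = k) :
    ∃ X : Fin k → Fin n, StrictMono X ∧
      (Finset.univ.filter fun z : Fin N => ∃ i, (z : ℕ) = e (X i)) = x := by
  classical
  have h1 : ∀ j : Fin k, ∃ i : Fin n, ((x.orderEmbOfFin hk j : Fin N) : ℕ) = e i := fun j =>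
    hx _ (x.orderEmbOfFin_mem hk j)
  choose X hX using h1
  refine ⟨X, ?_, ?_⟩
  · intro i j hij
    rw [← he.lt_iff_lt, ← hX, ← hX]
    exact (x.orderEmbOfFin hk).strictMono hij
  · ext z
    rw [Finset.mem_filter]
    constructor
    · rintro ⟨-, i, hi⟩
      have h2 : z = x.orderEmbOfFin hk i := by
        apply Fin.ext
        rw [hi, hX]
      rw [h2]
      exact x.orderEmbOfFin_mem hk i
    · intro hz
      refine ⟨Finset.mem_univ _, ?_⟩
      have h2 : z ∈ Set.range (x.orderEmbOfFin hk) := by
        rw [Finset.range_orderEmbOfFin]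
        exact hz
      obtain ⟨i, hi⟩ := h2
      refine ⟨i, ?_⟩
      rw [← hi, ← hX]

/-- the concatenation of two tuples -/
def cat {k n : ℕ} (x y : Fin k → Fin n) : Fin (k + k) → Fin n := Fin.append x y

lemma cat_strictMono {k n : ℕ} {x y : Fin k → Fin n} (hx : StrictMono x) (hy : StrictMono y)
    (hxy : ∀ i j, x i < y j) : StrictMono (cat x y) := by
  intro i j hij
  unfold cat
  induction i using Fin.addCases with
  | left i =>
    induction j using Fin.addCases with
    | left j =>
      rw [Fin.append_left, Fin.append_left]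
      apply hx
      rw [Fin.lt_def, Fin.val_castAdd, Fin.val_castAdd] at hij
      exact hij
    | right j =>
      rw [Fin.append_left, Fin.append_right]
      exact hxy i j
  | right i =>
    induction j using Fin.addCases with
    | left j =>
      exfalso
      rw [Fin.lt_def, Fin.val_natAdd, Fin.val_castAdd] at hij
      omega
    | right j =>
      rw [Fin.append_right, Fin.append_right]
      apply hy
      rw [Fin.lt_def, Fin.val_natAdd, Fin.val_natAdd] at hij
      rw [Fin.lt_def]
      omega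

theorem result (t c k n : ℕ) : ∃ N : ℕ, ∀ (V : Type) [Finite V] (H : SimpleGraph V),
    H.CliqueFree t → ∀ φ : Finset (Fin N) → V,
      (∀ A : Finset (Fin N), A.card = n →
        ∃ x ⊆ A, ∃ y ⊆ A, x.card = k ∧ y.card = k ∧ H.Adj (φ x) (φ y)) →
      ∃ A B : Set V, Disjoint A B ∧ (c : ℕ∞) ≤ (H.induce A).chromaticNumber ∧
        (c : ℕ∞) ≤ (H.induce B).chromaticNumber ∧ ∀ a ∈ A, ∀ b ∈ B, ¬ H.Adj a b := by
  classical
  -- the Ramsey numbers
  obtain ⟨M, hM⟩ := Pool.Agent.TH459.ER.ramsey_fin (Option (Fin c)) k n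
  obtain ⟨N, hN⟩ := Pool.Agent.TH459.ER.ramsey_fin Prop (k + k) (M + M + t * k)
  refine ⟨N, fun V _ H hcl φ hφ => ?_⟩
  let ψ : (Fin k → ℕ) → V := fun z => φ (Finset.univ.filter fun w : Fin N => ∃ i, (w : ℕ) = z i)
  obtain ⟨h, h1, h2, h3⟩ := hN fun z => H.Adj (ψ fun i => z (Fin.castAdd k i))
    (ψ fun i => z (Fin.natAdd k i))
  let L : ℕ := M + M + t * k
  have hcat : ∀ x y : Fin k → Fin L, (H.Adj (ψ fun i => (h ∘ cat x y) (Fin.castAdd k i))
      (ψ fun i => (h ∘ cat x y) (Fin.natAdd k i))) =
      H.Adj (ψ fun i => h (x i)) (ψ fun i => h (y i)) := by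
    intro x y
    have e1 : (fun i => (h ∘ cat x y) (Fin.castAdd k i)) = fun i => h (x i) := by
      funext i
      show h (Fin.append x y (Fin.castAdd k i)) = h (x i)
      rw [Fin.append_left]
    have e2 : (fun i => (h ∘ cat x y) (Fin.natAdd k i)) = fun i => h (y i) := by
      funext i
      show h (Fin.append x y (Fin.natAdd k i)) = h (y i)
      rw [Fin.append_right]
    rw [e1, e2]
  have hconst : ∀ x y x' y' : Fin k → Fin L, StrictMono (cat x y) → StrictMono (cat x' y') →
      H.Adj (ψ fun i => h (x i)) (ψ fun i => h (y i)) →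
      H.Adj (ψ fun i => h (x' i)) (ψ fun i => h (y' i)) := by
    intro x y x' y' hx hx' hadj
    rw [← hcat x' y', ← h3 _ _ hx hx', hcat x y]
    exact hadj
  by_cases hT : ∃ x y : Fin k → Fin L, StrictMono (cat x y) ∧
      H.Adj (ψ fun i => h (x i)) (ψ fun i => h (y i))
  · -- a clique
    exfalso
    obtain ⟨x, y, hxy, hadj⟩ := hT
    let bl : Fin t → Fin k → Fin L := fun s j => ⟨s * k + j, by
      have h4 : (s : ℕ) + 1 ≤ t := s.2
      have h5 := Nat.mul_le_mul_right k h4
      have h6 := j.2
      have h7 : ((s : ℕ) + 1) * k = s * k + k := by ring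
      show (s : ℕ) * k + j < M + M + t * k
      omega⟩
    have hbl : ∀ s, StrictMono (bl s) := by
      intro s i j hij
      show (s : ℕ) * k + i < s * k + j
      have : (i : ℕ) < j := hij
      omega
    have hbl2 : ∀ s s', s < s' → ∀ i j, bl s i < bl s' j := by
      intro s s' hss i j
      show (s : ℕ) * k + i < s' * k + j
      have h4 : (s : ℕ) + 1 ≤ s' := hss
      have h5 := Nat.mul_le_mul_right k h4
      have h6 := i.2
      have h7 : ((s : ℕ) + 1) * k = s * k + k := by ring
      omega
    have hG : ∀ s s', s < s' → H.Adj (ψ fun i => h (bl s i)) (ψ fun i => h (bl s' i)) :=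
      fun s s' hss => hconst _ _ _ _ hxy (cat_strictMono (hbl s) (hbl s') (hbl2 s s' hss)) hadj
    have hG' : ∀ s s', s ≠ s' → H.Adj (ψ fun i => h (bl s i)) (ψ fun i => h (bl s' i)) := by
      intro s s' hss
      rcases lt_or_gt_of_ne hss with h4 | h4
      · exact hG s s' h4
      · exact (hG s' s h4).symm
    have hinj : Function.Injective fun s : Fin t => ψ fun i => h (bl s i) := by
      intro s s' hss
      by_contra hne
      exact (hG' s s' hne).ne hss
    refine hcl (Finset.univ.image fun s : Fin t => ψ fun i => h (bl s i)) ⟨?_, ?_⟩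
    · intro p hp q hq hpq
      rw [Finset.mem_coe, Finset.mem_image] at hp hq
      obtain ⟨v, -, rfl⟩ := hp
      obtain ⟨w, -, rfl⟩ := hq
      exact hG' v w fun h4 => hpq (by rw [h4])
    · rw [Finset.card_image_of_injective _ hinj, Finset.card_univ, Fintype.card_fin]
  · -- two halves
    have hno : ∀ x y : Fin k → Fin L, StrictMono (cat x y) →
        ¬ H.Adj (ψ fun i => h (x i)) (ψ fun i => h (y i)) := fun x y hxy hadj =>
      hT ⟨x, y, hxy, hadj⟩
    have hML : M ≤ L := by
      show M ≤ M + M + t * k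
      omega
    let p1 : Fin M → Fin L := fun i => ⟨i, by
      have := i.2
      show (i : ℕ) < M + M + t * k
      omega⟩
    let p2 : Fin M → Fin L := fun i => ⟨M + i, by
      have := i.2
      show M + (i : ℕ) < M + M + t * k
      omega⟩
    have hp1 : StrictMono p1 := fun i j hij => hij
    have hp2 : StrictMono p2 := by
      intro i j hij
      show M + (i : ℕ) < M + j
      have : (i : ℕ) < j := hij
      omega
    let S : (Fin M → Fin L) → Set V := fun p =>
      {v | ∃ x : Fin k → Fin M, StrictMono x ∧ v = ψ fun i => h (p (x i))}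
    have hanti : ∀ a ∈ S p1, ∀ b ∈ S p2, ¬ H.Adj a b := by
      rintro a ⟨x, hx, rfl⟩ b ⟨y, hy, rfl⟩
      apply hno (fun i => p1 (x i)) (fun i => p2 (y i))
      apply cat_strictMono (hp1.comp hx) (hp2.comp hy)
      intro i j
      show ((x i : ℕ)) < M + (y j : ℕ)
      have := (x i).2
      omega
    -- large chromatic number
    have hchi : ∀ p : Fin M → Fin L, StrictMono p → ¬ (H.induce (S p)).Colorable c := by
      rintro p hp ⟨C⟩
      obtain ⟨h', g1, g2, g3⟩ := hM fun z =>
        if hz : ∃ hM' : ∀ i, z i < M, (ψ fun i => h (p ⟨z i, hM' i⟩)) ∈ S p then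
          some (C ⟨_, hz.choose_spec⟩) else none
      let e : Fin n → ℕ := fun i => h (p ⟨h' i, g2 i⟩)
      have he : StrictMono e := fun i j hij => h1 (hp (g1 hij))
      have heN : ∀ i, e i < N := fun i => h2 _
      obtain ⟨x, hx, y, hy, hxk, hyk, hadj⟩ := hφ (Finset.univ.image fun i : Fin n =>
        (⟨e i, heN i⟩ : Fin N)) (by
          rw [Finset.card_image_of_injective, Finset.card_univ, Fintype.card_fin]
          intro i j hij
          exact he.injective (congrArg Fin.val hij))
      have hmem : ∀ x ⊆ Finset.univ.image fun i : Fin n => (⟨e i, heN i⟩ : Fin N),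
          ∀ z ∈ x, ∃ i, (z : ℕ) = e i := by
        intro x hx z hz
        obtain ⟨i, -, rfl⟩ := Finset.mem_image.1 (hx hz)
        exact ⟨i, rfl⟩
      obtain ⟨X, hX1, hX2⟩ := enum e he x (hmem x hx) hxk
      obtain ⟨Y, hY1, hY2⟩ := enum e he y (hmem y hy) hyk
      have hin : ∀ X : Fin k → Fin n, StrictMono X →
          (ψ fun i => h (p ⟨(h' ∘ X) i, g2 (X i)⟩)) ∈ S p := by
        intro X hX
        exact ⟨fun i => ⟨h' (X i), g2 (X i)⟩, fun i j hij => g1 (hX hij), rfl⟩
      have hcol := g3 X Y hX1 hY1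
      have hexX : ∃ hM' : ∀ i, (h' ∘ X) i < M, (ψ fun i => h (p ⟨(h' ∘ X) i, hM' i⟩)) ∈ S p :=
        ⟨fun i => g2 (X i), hin X hX1⟩
      have hexY : ∃ hM' : ∀ i, (h' ∘ Y) i < M, (ψ fun i => h (p ⟨(h' ∘ Y) i, hM' i⟩)) ∈ S p :=
        ⟨fun i => g2 (Y i), hin Y hY1⟩
      rw [dif_pos hexX, dif_pos hexY, Option.some.injEq] at hcol
      have hX3 : (ψ fun i => h (p ⟨(h' ∘ X) i, g2 (X i)⟩)) = φ x := by
        show φ (Finset.univ.filter fun w : Fin N => ∃ i, (w : ℕ) = e (X i)) = φ x
        rw [hX2]
      have hY3 : (ψ fun i => h (p ⟨(h' ∘ Y) i, g2 (Y i)⟩)) = φ y := by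
        show φ (Finset.univ.filter fun w : Fin N => ∃ i, (w : ℕ) = e (Y i)) = φ y
        rw [hY2]
      refine C.valid ?_ hcol
      show H.Adj (ψ fun i => h (p ⟨(h' ∘ X) i, g2 (X i)⟩)) (ψ fun i => h (p ⟨(h' ∘ Y) i, g2 (Y i)⟩))
      rw [hX3, hY3]
      exact hadj
    -- remove the common vertices
    have hrem : ∀ A B : Set V, (∀ a ∈ A, ∀ b ∈ B, ¬ H.Adj a b) → ∀ d : ℕ,
        (H.induce (A \ B)).Colorable d → (H.induce A).Colorable (d + 1) := by
      rintro A B hAB d ⟨C⟩
      refine ⟨SimpleGraph.Coloring.mk (fun v : A => if hv : v.1 ∈ B then Fin.last d else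
        (C ⟨v.1, v.2, hv⟩).castSucc) ?_⟩
      intro v w hvw heq
      have hvw' : H.Adj v.1 w.1 := hvw
      by_cases hv : v.1 ∈ B
      · exact hAB w.1 w.2 v.1 hv hvw'.symm
      · by_cases hw : w.1 ∈ B
        · exact hAB v.1 v.2 w.1 hw hvw'
        · simp only [dif_neg hv, dif_neg hw] at heq
          have h5 := Fin.castSucc_injective _ heq
          exact C.valid (show (H.induce (A \ B)).Adj ⟨v.1, v.2, hv⟩ ⟨w.1, w.2, hw⟩ from hvw') h5
    have hfin : ∀ A B : Set V, (∀ a ∈ A, ∀ b ∈ B, ¬ H.Adj a b) → ¬ (H.induce A).Colorable c →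
        (c : ℕ∞) ≤ (H.induce (A \ B)).chromaticNumber := by
      intro A B hAB hA
      by_contra hcon
      rw [not_le] at hcon
      rcases Nat.eq_zero_or_pos c with h0 | h0
      · rw [h0] at hcon
        exact absurd hcon (by simp)
      · obtain ⟨d, rfl⟩ : ∃ d, c = d + 1 := ⟨c - 1, by omega⟩
        rw [Nat.cast_add, Nat.cast_one, ENat.lt_natCast_add_one_iff,
          SimpleGraph.chromaticNumber_le_iff_colorable] at hcon
        exact hA (hrem A B hAB d hcon)
    refine ⟨S p1 \ S p2, S p2 \ S p1, ?_, hfin _ _ hanti (hchi p1 hp1),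
      hfin _ _ (fun a ha b hb hab => hanti b hb a ha hab.symm) (hchi p2 hp2), ?_⟩
    · rw [Set.disjoint_left]
      intro v hv hv'
      exact hv.2 hv'.1
    · intro a ha b hb
      exact hanti a ha.1 b hb.1

end Pool.Agent.Results.MP_0c540e_co.RamseyWitnessed
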